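import Pool.Agent.X107.JF.Cor
set_option autoImplicit false

/-!
# Almost all families of `log ^ A N` integers have a sparse large spectrum
-/

namespace Pool.Agent.X107.JF
open Finset
open Pool.Agent.H807R2.Dav Pool.Agent.H373R2.T7

/-- a large deviation estimate by counting -/
lemma dev_count (N k : ℕ) (Y : Fin N → ℝ) (hY : ∀ s, |Y s| ≤ 2) (h0 : ∑ s, Y s = 0) (l a : ℝ)
    (hl0 : 0 ≤ l) (hl : l ≤ 1 / 2) :
    (((univ : Finset (Fin k → Fin N)).filter (fun v => a < ∑ i, Y (v i))).card : ℝ) ≤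
      (N : ℝ) ^ k * Real.exp (4 * l ^ 2 * k - l * a) := by
  classical
  have h1 : ∑ s, Real.exp (l * Y s) ≤ N * Real.exp (4 * l ^ 2) := by
    have h2 : ∀ s, Real.exp (l * Y s) ≤ 1 + l * Y s + 4 * l ^ 2 := by
      intro s
      have h3 : |l * Y s| ≤ 1 := by
        rw [abs_mul, abs_of_nonneg hl0]
        calc l * |Y s| ≤ (1 / 2) * 2 := mul_le_mul hl (hY s) (abs_nonneg _) (by norm_num)
          _ = 1 := by norm_num
      have h4 := Real.abs_exp_sub_one_sub_id_le h3
      have h5 := (abs_le.1 h4).2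
      have h6 : (l * Y s) ^ 2 ≤ 4 * l ^ 2 := by
        rw [mul_pow]
        have : (Y s) ^ 2 ≤ 4 := by
          have := sq_le_sq' (by linarith [(abs_le.1 (hY s)).1] : -2 ≤ Y s) (abs_le.1 (hY s)).2
          linarith
        nlinarith [sq_nonneg l]
      linarith
    calc ∑ s, Real.exp (l * Y s) ≤ ∑ s : Fin N, (1 + l * Y s + 4 * l ^ 2) := sum_le_sum fun s _ => h2 s
      _ = N * (1 + 4 * l ^ 2) := by
          rw [sum_add_distrib, sum_add_distrib, ← mul_sum, h0]
          simp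
          ring
      _ ≤ N * Real.exp (4 * l ^ 2) := by
          apply mul_le_mul_of_nonneg_left _ (Nat.cast_nonneg _)
          have := Real.add_one_le_exp (4 * l ^ 2)
          linarith
  have h7 : (((univ : Finset (Fin k → Fin N)).filter (fun v => a < ∑ i, Y (v i))).card : ℝ) *
      Real.exp (l * a) ≤ (N * Real.exp (4 * l ^ 2)) ^ k := by
    have h8 : (∑ s, Real.exp (l * Y s)) ^ k = ∑ v : Fin k → Fin N, ∏ i, Real.exp (l * Y (v i)) := by
      rw [Fintype.sum_pow]
    have h9 : (((univ : Finset (Fin k → Fin N)).filter (fun v => a < ∑ i, Y (v i))).card : ℝ) *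
        Real.exp (l * a) ≤ ∑ v : Fin k → Fin N, ∏ i, Real.exp (l * Y (v i)) := by
      rw [← nsmul_eq_mul, ← sum_const]
      refine le_trans (sum_le_sum fun v hv => ?_) (sum_le_sum_of_subset_of_nonneg
        (filter_subset _ _) (fun _ _ _ => prod_nonneg fun _ _ => (Real.exp_pos _).le))
      rw [mem_filter] at hv
      rw [← Real.exp_sum]
      apply Real.exp_le_exp.2
      rw [← mul_sum]
      exact mul_le_mul_of_nonneg_left hv.2.le hl0
    rw [← h8] at h9
    exact h9.trans (pow_le_pow_left₀ (sum_nonneg fun _ _ => (Real.exp_pos _).le) h1 k)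
  rw [sub_eq_add_neg, Real.exp_add, Real.exp_neg]
  have h10 : (N * Real.exp (4 * l ^ 2)) ^ k = (N : ℝ) ^ k * Real.exp (4 * l ^ 2 * k) := by
    rw [mul_pow, ← Real.exp_nat_mul]
    congr 2
    ring
  rw [h10] at h7
  rw [← mul_assoc, ← div_eq_mul_inv, le_div_iff₀ (Real.exp_pos _)]
  exact h7

/-- the complex version -/
lemma dev_count_complex (N k : ℕ) (X : Fin N → ℂ) (hX : ∀ s, ‖X s‖ ≤ 2) (h0 : ∑ s, X s = 0)
    (l a : ℝ) (hl0 : 0 ≤ l) (hl : l ≤ 1 / 2) :
    (((univ : Finset (Fin k → Fin N)).filter (fun v => 2 * a < ‖∑ i, X (v i)‖)).card : ℝ) ≤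
      4 * ((N : ℝ) ^ k * Real.exp (4 * l ^ 2 * k - l * a)) := by
  classical
  have hre : ∑ s, (X s).re = 0 := by rw [← Complex.re_sum, h0, Complex.zero_re]
  have him : ∑ s, (X s).im = 0 := by rw [← Complex.im_sum, h0, Complex.zero_im]
  have d1 := dev_count N k (fun s => (X s).re) (fun s => (Complex.abs_re_le_norm _).trans (hX s))
    hre l a hl0 hl
  have d2 := dev_count N k (fun s => -(X s).re)
    (fun s => by rw [abs_neg]; exact (Complex.abs_re_le_norm _).trans (hX s))
    (by rw [sum_neg_distrib, hre, neg_zero]) l a hl0 hl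
  have d3 := dev_count N k (fun s => (X s).im) (fun s => (Complex.abs_im_le_norm _).trans (hX s))
    him l a hl0 hl
  have d4 := dev_count N k (fun s => -(X s).im)
    (fun s => by rw [abs_neg]; exact (Complex.abs_im_le_norm _).trans (hX s))
    (by rw [sum_neg_distrib, him, neg_zero]) l a hl0 hl
  have hsub : ((univ : Finset (Fin k → Fin N)).filter (fun v => 2 * a < ‖∑ i, X (v i)‖)) ⊆
      (((univ : Finset (Fin k → Fin N)).filter (fun v => a < ∑ i, (X (v i)).re)) ∪
      ((univ : Finset (Fin k → Fin N)).filter (fun v => a < ∑ i, -(X (v i)).re))) ∪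
      (((univ : Finset (Fin k → Fin N)).filter (fun v => a < ∑ i, (X (v i)).im)) ∪
      ((univ : Finset (Fin k → Fin N)).filter (fun v => a < ∑ i, -(X (v i)).im))) := by
    intro v hv
    rw [mem_filter] at hv
    simp only [mem_union, mem_filter, mem_univ, true_and, sum_neg_distrib]
    rw [← Complex.re_sum, ← Complex.im_sum]
    by_contra hcon
    push Not at hcon
    obtain ⟨⟨c1, c2⟩, c3, c4⟩ := hcon
    have h5 : |(∑ i, X (v i)).re| ≤ a := abs_le.2 ⟨by linarith, c1⟩
    have h6 : |(∑ i, X (v i)).im| ≤ a := abs_le.2 ⟨by linarith, c3⟩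
    have h7 := Complex.norm_le_abs_re_add_abs_im (∑ i, X (v i))
    linarith [hv.2]
  have hcard := card_le_card hsub
  have h1 := hcard.trans (card_union_le _ _)
  have h2 := card_union_le ((univ : Finset (Fin k → Fin N)).filter (fun v => a < ∑ i, (X (v i)).re))
    ((univ : Finset (Fin k → Fin N)).filter (fun v => a < ∑ i, -(X (v i)).re))
  have h3 := card_union_le ((univ : Finset (Fin k → Fin N)).filter (fun v => a < ∑ i, (X (v i)).im))
    ((univ : Finset (Fin k → Fin N)).filter (fun v => a < ∑ i, -(X (v i)).im))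
  have h4 : (((univ : Finset (Fin k → Fin N)).filter (fun v => 2 * a < ‖∑ i, X (v i)‖)).card : ℝ) ≤
      ((((univ : Finset (Fin k → Fin N)).filter (fun v => a < ∑ i, (X (v i)).re)).card : ℝ) +
      (((univ : Finset (Fin k → Fin N)).filter (fun v => a < ∑ i, -(X (v i)).re)).card : ℝ)) +
      ((((univ : Finset (Fin k → Fin N)).filter (fun v => a < ∑ i, (X (v i)).im)).card : ℝ) +
      (((univ : Finset (Fin k → Fin N)).filter (fun v => a < ∑ i, -(X (v i)).im)).card : ℝ)) := by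
    exact_mod_cast h1.trans (add_le_add h2 h3)
  linarith

/-- **Almost all families of `k ≥ log ^ (2 A + 2) N` integers in `[1, N]` have a sparse large
spectrum.** -/
theorem spec_random (K A : ℕ) (hK : 1 ≤ K) : ∃ N0 : ℕ, ∀ N : ℕ, N0 ≤ N → ∀ k : ℕ,
    Real.log N ^ (2 * A + 2) ≤ k →
    (((univ : Finset (Fin k → Fin N)).filter (fun v => ¬
      (spec (fun i : Fin k => ((v i : ℕ) : ℤ) + 1) (K * N) (1 / Real.log N ^ A) : ℝ) ≤
        Real.log N ^ (A + 1))).card : ℝ) ≤ (N : ℝ) ^ k / N := by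
  classical
  obtain ⟨m1, h1⟩ := ev_L' (768 + 8 * K)
  refine ⟨max m1 (max (4 * K) 3), fun N hN k hk => ?_⟩
  have hL := h1 N ((le_max_left _ _).trans hN)
  have hN4K : 4 * K ≤ N := ((le_max_left _ _).trans (le_max_right _ _)).trans hN
  have hN3 : 3 ≤ N := ((le_max_right _ _).trans (le_max_right _ _)).trans hN
  have hNr : (3 : ℝ) ≤ N := by exact_mod_cast hN3
  have hN0 : (0 : ℝ) < N := by linarith
  obtain ⟨L, hLd⟩ : ∃ L, L = Real.log (N : ℝ) := ⟨_, rfl⟩
  rw [← hLd] at hL hk ⊢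
  have hKr : (1 : ℝ) ≤ K := by exact_mod_cast hK
  have hL1 : 1 ≤ L := by linarith
  have hL0 : 0 < L := by linarith
  obtain ⟨M, hM⟩ : ∃ M, M = K * N := ⟨_, rfl⟩
  have hM1 : 1 ≤ M := by rw [hM]; exact Nat.mul_pos (by omega) (by omega)
  have hMr : (M : ℝ) = K * N := by rw [hM]; push_cast; ring
  have hM0 : (0 : ℝ) < M := by exact_mod_cast hM1
  rw [← hM]
  have hLA : 1 ≤ L ^ A := one_le_pow₀ hL1
  have hk0 : (0 : ℝ) < k := lt_of_lt_of_le (by positivity) hk
  obtain ⟨W, hW⟩ : ∃ W, W = 3 * K * L ^ A := ⟨_, rfl⟩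
  have hW0 : 0 < W := by rw [hW]; positivity
  -- the middle frequencies
  obtain ⟨Mid, hMid⟩ : ∃ Mid, Mid = (range M).filter (fun t : ℕ => W ≤ t ∧ W ≤ (M : ℝ) - t) :=
    ⟨_, rfl⟩
  obtain ⟨X, hX⟩ : ∃ X : ℕ → Fin N → ℂ, X = fun (t : ℕ) (s : Fin N) => ee ((t : ℝ) * ((((s : ℕ) : ℝ) + 1) / M)) :=
    ⟨_, rfl⟩
  obtain ⟨μ, hμ⟩ : ∃ μ : ℕ → ℂ, μ = fun t => (∑ s, X t s) / N := ⟨_, rfl⟩
  have hX1 : ∀ t s, ‖X t s‖ = 1 := by intro t s; rw [hX]; exact norm_ee _
  have hμ1 : ∀ t, ‖μ t‖ ≤ 1 := by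
    intro t
    rw [hμ]
    simp only
    rw [norm_div, Complex.norm_natCast, div_le_one hN0]
    refine (norm_sum_le _ _).trans ?_
    simp only [hX1, sum_const, card_univ, Fintype.card_fin, nsmul_eq_mul, mul_one, le_refl]
  have hμmid : ∀ t ∈ Mid, ‖μ t‖ ≤ 1 / (4 * L ^ A) := by
    intro t ht
    rw [hMid, mem_filter, mem_range] at ht
    obtain ⟨ht1, ht2, ht3⟩ := ht
    rw [hμ]
    simp only
    rw [norm_div, Complex.norm_natCast, div_le_iff₀ hN0]
    have e1 : ∑ s, X t s = ∑ m ∈ Ico 1 (N + 1), ee (m * ((t : ℝ) / M)) := by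
      rw [hX]
      rw [Fin.sum_univ_eq_sum_range (fun s => ee ((t : ℝ) * (((s : ℝ) + 1) / M))) N]
      rw [sum_Ico_eq_sum_range]
      simp only [Nat.add_sub_cancel]
      apply sum_congr rfl
      intro m _
      congr 1
      push_cast
      ring
    rw [e1]
    have e2 := geo_bound 1 (N + 1) (by omega) (M := N) (by push_cast; linarith) ((t : ℝ) / M)
    refine e2.trans ?_
    have e3 : 4 * (W / M) ≤ dd ((t : ℝ) / M) := by
      have e4 := dd_ge (t := (t : ℝ) / M) (by positivity) (by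
        rw [div_le_one hM0]; exact_mod_cast ht1.le)
      refine le_trans ?_ e4
      apply mul_le_mul_of_nonneg_left _ (by norm_num)
      apply le_min
      · gcongr
      · rw [div_le_iff₀ hM0, sub_mul, one_mul, div_mul_cancel₀ _ hM0.ne']
        exact ht3
    refine (KK_le' hN0.le (by positivity) e3).trans ?_
    rw [hW, hMr]
    apply le_of_eq
    field_simp
  -- the bad families for a middle frequency
  have hbad : ∀ t ∈ Mid, (((univ : Finset (Fin k → Fin N)).filter (fun v =>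
      1 / L ^ A * k < ‖ES (fun i : Fin k => ((v i : ℕ) : ℤ) + 1) M t‖)).card : ℝ) ≤
      4 * ((N : ℝ) ^ k * (1 / (N : ℝ) ^ 3)) := by
    intro t ht
    have hdev := dev_count_complex N k (fun s => X t s - μ t)
      (fun s => (norm_sub_le _ _).trans (by rw [hX1]; linarith [hμ1 t])) (by
        rw [sum_sub_distrib, sum_const, card_univ, Fintype.card_fin, nsmul_eq_mul, hμ]
        have : (N : ℂ) ≠ 0 := by exact_mod_cast hN0.ne'
        field_simp
        ring) (1 / (32 * L ^ A)) (k / (4 * L ^ A)) (by positivity) (by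
        rw [div_le_div_iff₀ (by positivity) (by norm_num)]
        linarith)
    have hsub : ((univ : Finset (Fin k → Fin N)).filter (fun v =>
        1 / L ^ A * k < ‖ES (fun i : Fin k => ((v i : ℕ) : ℤ) + 1) M t‖)) ⊆
        ((univ : Finset (Fin k → Fin N)).filter (fun v =>
          2 * (k / (4 * L ^ A)) < ‖∑ i, (X t (v i) - μ t)‖)) := by
      intro v hv
      rw [mem_filter] at hv ⊢
      refine ⟨mem_univ _, ?_⟩
      have e1 : ES (fun i : Fin k => ((v i : ℕ) : ℤ) + 1) M t = ∑ i, X t (v i) := by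
        unfold ES
        rw [hX]
        apply sum_congr rfl
        intro i _
        congr 1
        push_cast
        ring
      have e2 : ∑ i, X t (v i) = ∑ i, (X t (v i) - μ t) + k * μ t := by
        rw [sum_sub_distrib, sum_const, card_univ, Fintype.card_fin, nsmul_eq_mul]
        ring
      have e3 : ‖(k : ℂ) * μ t‖ ≤ k / (4 * L ^ A) := by
        rw [norm_mul, Complex.norm_natCast]
        calc (k : ℝ) * ‖μ t‖ ≤ k * (1 / (4 * L ^ A)) := by gcongr; exact hμmid t ht
          _ = _ := by ring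
      have e4 := hv.2
      rw [e1, e2] at e4
      have e5 := norm_add_le (∑ i, (X t (v i) - μ t)) ((k : ℂ) * μ t)
      have e6 : 1 / L ^ A * k = 4 * (k / (4 * L ^ A)) := by field_simp
      have e7 : 0 < k / (4 * L ^ A) := by positivity
      rw [e6] at e4
      linarith
    have h2 : (((univ : Finset (Fin k → Fin N)).filter (fun v =>
        1 / L ^ A * k < ‖ES (fun i : Fin k => ((v i : ℕ) : ℤ) + 1) M t‖)).card : ℝ) ≤
        (((univ : Finset (Fin k → Fin N)).filter (fun v =>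
          2 * (k / (4 * L ^ A)) < ‖∑ i, (X t (v i) - μ t)‖)).card : ℝ) := by
      exact_mod_cast card_le_card hsub
    refine (h2.trans hdev).trans ?_
    apply mul_le_mul_of_nonneg_left _ (by norm_num)
    apply mul_le_mul_of_nonneg_left _ (by positivity)
    -- the exponent
    have h3 : 4 * (1 / (32 * L ^ A)) ^ 2 * (k : ℝ) - 1 / (32 * L ^ A) * (k / (4 * L ^ A)) =
        -(k / (256 * L ^ (2 * A))) := by
      have : L ^ (2 * A) = L ^ A * L ^ A := by rw [← pow_add]; congr 1; ring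
      rw [this]
      field_simp
      ring
    have h4 : 3 * L ≤ k / (256 * L ^ (2 * A)) := by
      rw [le_div_iff₀ (by positivity)]
      calc 3 * L * (256 * L ^ (2 * A)) = 768 * (L * L ^ (2 * A)) := by ring
        _ ≤ L * (L * L ^ (2 * A)) := by gcongr; linarith
        _ = L ^ (2 * A + 2) := by ring
        _ ≤ k := hk
    have h5 : Real.exp (-(3 * L)) = 1 / (N : ℝ) ^ 3 := by
      rw [Real.exp_neg, hLd, show (3 : ℝ) * Real.log N = ((3 : ℕ) : ℝ) * Real.log N by norm_num,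
        Real.exp_nat_mul, Real.exp_log hN0, one_div]
    rw [h3, ← h5]
    exact Real.exp_le_exp.2 (by linarith)
  -- the union over the middle frequencies
  have hsub : ((univ : Finset (Fin k → Fin N)).filter (fun v => ¬
      (spec (fun i : Fin k => ((v i : ℕ) : ℤ) + 1) M (1 / L ^ A) : ℝ) ≤ L ^ (A + 1))) ⊆
      Mid.biUnion (fun t => (univ : Finset (Fin k → Fin N)).filter (fun v =>
        1 / L ^ A * k < ‖ES (fun i : Fin k => ((v i : ℕ) : ℤ) + 1) M t‖)) := by
    intro v hv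
    rw [mem_filter] at hv
    rw [mem_biUnion]
    by_contra hcon
    push Not at hcon
    apply hv.2
    have e1 : ∀ t ∈ Mid, ¬ (1 / L ^ A * k < ‖ES (fun i : Fin k => ((v i : ℕ) : ℤ) + 1) M t‖) := by
      intro t ht hlt
      exact hcon t ht (mem_filter.2 ⟨mem_univ _, hlt⟩)
    have e2 : (range M).filter (fun t : ℕ => 1 / L ^ A * (Fintype.card (Fin k) : ℝ) <
        ‖ES (fun i : Fin k => ((v i : ℕ) : ℤ) + 1) M t‖) ⊆
        (range (⌊W⌋₊ + 1)) ∪ ((range (⌊W⌋₊ + 1)).image (fun j => M - j)) := by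
      intro t ht
      rw [mem_filter, mem_range, Fintype.card_fin] at ht
      rw [mem_union, mem_range, mem_image]
      by_contra hcon2
      push Not at hcon2
      obtain ⟨c1, c2⟩ := hcon2
      apply e1 t _ ht.2
      rw [hMid, mem_filter, mem_range]
      refine ⟨ht.1, ?_, ?_⟩
      · have : W < (⌊W⌋₊ : ℝ) + 1 := Nat.lt_floor_add_one _
        have c3 : ((⌊W⌋₊ : ℝ) + 1) ≤ t := by exact_mod_cast c1
        linarith
      · by_contra hlt
        rw [not_le] at hlt
        have c3 : ((M - t : ℕ) : ℝ) = (M : ℝ) - t := by rw [Nat.cast_sub ht.1.le]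
        have c4 : M - t ≤ ⌊W⌋₊ := Nat.le_floor (by rw [c3]; exact hlt.le)
        have := c2 (M - t) (by rw [mem_range]; omega)
        omega
    have e3 : (spec (fun i : Fin k => ((v i : ℕ) : ℤ) + 1) M (1 / L ^ A) : ℝ) ≤
        2 * ((⌊W⌋₊ : ℝ) + 1) := by
      unfold spec
      have e4 := (card_le_card e2).trans (card_union_le _ _)
      have e5 : ((range (⌊W⌋₊ + 1)).image (fun j => M - j)).card ≤ ⌊W⌋₊ + 1 := by
        refine card_image_le.trans ?_
        rw [card_range]
      rw [card_range] at e4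
      have e6 := e4.trans (add_le_add_right e5 _)
      have e7 : (((range M).filter (fun t : ℕ => 1 / L ^ A * (Fintype.card (Fin k) : ℝ) <
        ‖ES (fun i : Fin k => ((v i : ℕ) : ℤ) + 1) M t‖)).card : ℝ) ≤
          ((⌊W⌋₊ + 1 + (⌊W⌋₊ + 1) : ℕ) : ℝ) := by exact_mod_cast e6
      refine e7.trans (le_of_eq ?_)
      push_cast
      ring
    refine e3.trans ?_
    have e8 : (⌊W⌋₊ : ℝ) ≤ W := Nat.floor_le hW0.le
    rw [pow_succ]
    calc 2 * ((⌊W⌋₊ : ℝ) + 1) ≤ 2 * (W + 1) := by linarith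
      _ = 6 * K * L ^ A + 2 := by rw [hW]; ring
      _ ≤ 6 * K * L ^ A + 2 * L ^ A := by linarith
      _ = L ^ A * (6 * K + 2) := by ring
      _ ≤ L ^ A * L := by gcongr; linarith
  have h1 : (((univ : Finset (Fin k → Fin N)).filter (fun v => ¬
      (spec (fun i : Fin k => ((v i : ℕ) : ℤ) + 1) M (1 / L ^ A) : ℝ) ≤ L ^ (A + 1))).card : ℝ) ≤
      ∑ t ∈ Mid, (((univ : Finset (Fin k → Fin N)).filter (fun v =>
        1 / L ^ A * k < ‖ES (fun i : Fin k => ((v i : ℕ) : ℤ) + 1) M t‖)).card : ℝ) := by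
    exact_mod_cast (card_le_card hsub).trans card_biUnion_le
  refine h1.trans ((sum_le_sum hbad).trans ?_)
  rw [sum_const, nsmul_eq_mul]
  have h2 : (Mid.card : ℝ) ≤ K * N := by
    rw [← hMr, hMid]
    have := card_filter_le (range M) (fun t : ℕ => W ≤ t ∧ W ≤ (M : ℝ) - t)
    rw [card_range] at this
    exact_mod_cast this
  have h4K : 4 * (K : ℝ) ≤ N := by exact_mod_cast hN4K
  have hNk : (0 : ℝ) ≤ (N : ℝ) ^ k := by positivity
  calc (Mid.card : ℝ) * (4 * ((N : ℝ) ^ k * (1 / (N : ℝ) ^ 3))) ≤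
        (K * N) * (4 * ((N : ℝ) ^ k * (1 / (N : ℝ) ^ 3))) := by gcongr
    _ = (4 * K) * ((N : ℝ) ^ k / (N : ℝ) ^ 2) := by field_simp
    _ ≤ N * ((N : ℝ) ^ k / (N : ℝ) ^ 2) := by gcongr
    _ = (N : ℝ) ^ k / N := by field_simp

end Pool.Agent.X107.JF
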